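import Pool.Agent.Lib.MP_094079_nt.Uni.Four
import Pool.Agent.Lib.MP_094079_nt.F112
import Pool.Agent.Lib.MP_094079_nt.F121
import Pool.Agent.Lib.MP_094079_nt.F421

namespace Pool.Agent.Results.MP_094079_nt.SevenForms

open Pool.Agent.Lib.MP_094079_nt

/-- For seven forms `a x + b y + c z` of the list, every positive `n` with
`(a ^ 2 + b ^ 2 + c ^ 2) * n` not congruent to `15` or `47` modulo `56` is representable. -/
theorem result (a b c : ℤ)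
    (h : (a, b, c) ∈ ({(1, 1, -1), (1, 1, -2), (1, 2, -1), (1, 2, -2), (2, -1, 0), (2, -2, -1),
      (4, -2, -1)} : Set (ℤ × ℤ × ℤ)))
    (n : ℕ) (hn : 0 < n) (h15 : (a ^ 2 + b ^ 2 + c ^ 2) * (n : ℤ) % 56 ≠ 15)
    (h47 : (a ^ 2 + b ^ 2 + c ^ 2) * (n : ℤ) % 56 ≠ 47) :
    ∃ x y z w k : ℕ, n = x ^ 2 + y ^ 2 + z ^ 2 + w ^ 2 ∧
      a * (x : ℤ) + b * (y : ℤ) + c * (z : ℤ) = 2 ^ k := by
  simp only [Set.mem_insert_iff, Set.mem_singleton_iff, Prod.mk.injEq] at h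
  rcases h with ⟨rfl, rfl, rfl⟩ | ⟨rfl, rfl, rfl⟩ | ⟨rfl, rfl, rfl⟩ | ⟨rfl, rfl, rfl⟩ |
    ⟨rfl, rfl, rfl⟩ | ⟨rfl, rfl, rfl⟩ | ⟨rfl, rfl, rfl⟩
  · exact uni111 n hn (by omega) (by omega)
  · exact form112 n hn
  · exact form121 n hn
  · exact uni122 n hn (by omega) (by omega)
  · exact uni210 n hn (by omega) (by omega)
  · exact uni221 n hn (by omega) (by omega)
  · exact form421 n hn

end Pool.Agent.Results.MP_094079_nt.SevenForms
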